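import Mathlib
import Pool.Agent.Work.MP_29df5b_nt.Primes
import Pool.Agent.Work.MP_29df5b_nt.Approx
import Pool.Agent.Work.MP_29df5b_nt.Det

set_option autoImplicit false

namespace Pool.Agent.Results.MP_29df5b_nt.NotMetricPoissonian

open MeasureTheory Finset Filter Topology
open Pool.Agent.Work.MP_29df5b_nt

/-- A sequence `x 1, x 2, …` of points of `ℝ^d` (here used for points of `[0,1)^d`) has Poissonian pair
correlations: for every `s > 0`, the number of ordered pairs `(k,l)`, `1 ≤ k ≠ l ≤ N`, with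
`‖x k - x l‖_∞ < s / N^(1/d)`, divided by `N`, tends to `(2s)^d`. The norm on `Fin d → ℝ` is the
maximum norm. -/
def HasPPC (d : ℕ) (x : ℕ → Fin d → ℝ) : Prop :=
  ∀ s : ℝ, 0 < s → Tendsto (fun N : ℕ => (1 / (N : ℝ)) *
    ((((Icc 1 N) ×ˢ (Icc 1 N)).filter
      (fun kl : ℕ × ℕ => kl.1 ≠ kl.2 ∧ ‖x kl.1 - x kl.2‖ < s / (N : ℝ) ^ ((1 : ℝ) / (d : ℝ)))).card : ℝ))
    atTop (𝓝 ((2 * s) ^ d))

/-- The sequence `({p_n α})_{n ≥ 1}`, `p_n` the `n`-th prime (`Nat.nth Nat.Prime 0 = 2`). -/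
noncomputable def primeSeq (d : ℕ) (α : Fin d → ℝ) (n : ℕ) (i : Fin d) : ℝ :=
  Int.fract ((Nat.nth Nat.Prime (n - 1) : ℝ) * α i)

/-- For every `d ≥ 2` and almost every `α ∈ ℝ^d`, the sequence `({p_n α})` does not have Poissonian
pair correlations. -/
theorem result (d : ℕ) (hd : 2 ≤ d) : ∀ᵐ α : Fin d → ℝ, ¬ HasPPC d (primeSeq d α) := by
  obtain ⟨C, hC, hCb⟩ := pr_bound
  set i0 : Fin d := ⟨0, by omega⟩ with hi0
  set i1 : Fin d := ⟨1, by omega⟩ with hi1
  have h01 : i0 ≠ i1 := by rw [hi0, hi1]; simp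
  set L : ℕ := (d + 3) * (2^d + 3) with hL
  have hL1 : 1 ≤ L := Nat.mul_pos (Nat.succ_pos _) (Nat.succ_pos _)
  have hLr : (1 : ℝ) ≤ L := by exact_mod_cast hL1
  have hdr : (2 : ℝ) ≤ d := by exact_mod_cast hd
  set c : ℝ := min (1/4) (1 / (2 * d * C * (L : ℝ)^(d+1))) with hc
  have hc0 : 0 < c := by
    rw [hc]; apply lt_min (by norm_num); positivity
  have hc1 : c ≤ 1/4 := min_le_left _ _
  have hc2 : c ≤ 1 / (2 * d * C * (L : ℝ)^(d+1)) := min_le_right _ _
  filter_upwards [approx hd i0 i1 h01 c hc0 hc1] with α hα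
  intro hppc
  have hlim := hppc 1 one_pos
  have hev : ∀ᶠ N : ℕ in atTop, (1 / (N : ℝ)) *
    ((((Icc 1 N) ×ˢ (Icc 1 N)).filter
      (fun kl : ℕ × ℕ => kl.1 ≠ kl.2 ∧ ‖primeSeq d α kl.1 - primeSeq d α kl.2‖ < 1 / (N : ℝ) ^ ((1 : ℝ) / (d : ℝ)))).card : ℝ) < 
      (2 * 1) ^ d + 1 := by
    apply hlim.eventually_lt_const
    linarith
  rw [eventually_atTop] at hev
  obtain ⟨N0, hN0⟩ := hev
  obtain ⟨v, b, hb, hvb, hvi, m, hm⟩ := hα (max N0 L)
  have hbN0 : N0 ≤ b := by have := le_max_left N0 L; omega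
  have hbL : L ≤ b := by have := le_max_right N0 L; omega
  have hb2 : 2 ≤ b := by omega
  set K := L * b with hK
  have hK1 : 1 ≤ K := Nat.mul_pos hL1 (by omega)
  set N := K^d with hN
  have hbK : b ≤ K := Nat.le_mul_of_pos_left b hL1
  have hKN : K ≤ N := Nat.le_self_pow (by omega) K
  have hN2 : 2 ≤ N := by omega
  have hbr : (2 : ℝ) ≤ b := by exact_mod_cast hb2
  have hlogb : 0 < Real.log b := Real.log_pos (by linarith)
  have hLb : (L : ℝ) ≤ b := by exact_mod_cast hbL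
  -- closeness to the hyperplanes
  have hclose : ∀ n ∈ Icc 1 N, ∃ a : ℤ, |∑ i, (v i : ℝ) * primeSeq d α n i - a| ≤ 1 / L := by
    intro n hn
    rw [Finset.mem_Icc] at hn
    set p : ℕ := Nat.nth Nat.Prime (n-1) with hp
    refine ⟨p * m - ∑ i, (v i : ℤ) * ⌊(p : ℝ) * α i⌋, ?_⟩
    have e1 : ∑ i, (v i : ℝ) * primeSeq d α n i - ((p * m - ∑ i, (v i : ℤ) * ⌊(p : ℝ) * α i⌋ : ℤ) : ℝ) = 
        p * (∑ i, (v i : ℝ) * α i - m) := by
      unfold primeSeq
      rw [← hp]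
      push_cast
      rw [mul_sub, Finset.mul_sum]
      have : ∀ i, (v i : ℝ) * Int.fract ((p : ℝ) * α i) = p * (v i * α i) - v i * ⌊(p : ℝ) * α i⌋ := by
        intro i; unfold Int.fract; ring
      simp_rw [this]
      rw [Finset.sum_sub_distrib]
      ring
    rw [e1, abs_mul]
    have hpN : (p : ℝ) ≤ C * (N * Real.log N) := by
      have h1 : pr n ≤ pr N := pr_mono hn.2
      have h2 := hCb N hN2
      have h3 : (pr n : ℝ) ≤ pr N := by exact_mod_cast h1
      exact h3.trans h2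
    have hlogN : Real.log N ≤ 2 * d * Real.log b := by
      rw [hN, hK]
      push_cast
      rw [Real.log_pow, Real.log_mul (by positivity) (by positivity)]
      have : Real.log L ≤ Real.log b := Real.log_le_log (by linarith) hLb
      nlinarith
    have hNe : (N : ℝ) = (L : ℝ)^d * (b : ℝ)^d := by rw [hN, hK]; push_cast; rw [mul_pow]
    rw [abs_of_nonneg (by positivity : (0 : ℝ) ≤ p)]
    calc (p : ℝ) * |∑ i, (v i : ℝ) * α i - m| 
        ≤ (C * (N * (2 * d * Real.log b))) * (c / ((b : ℝ)^d * Real.log b)) := by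
          apply mul_le_mul (hpN.trans _) hm (abs_nonneg _) (by positivity)
          gcongr
      _ = (2 * d * C * (L : ℝ)^d) * c := by
          rw [hNe]; field_simp
      _ ≤ (2 * d * C * (L : ℝ)^d) * (1 / (2 * d * C * (L : ℝ)^(d+1))) := by gcongr
      _ = 1 / L := by rw [pow_succ]; field_simp
  have hx : ∀ n i, 0 ≤ primeSeq d α n i ∧ primeSeq d α n i < 1 := by
    intro n i
    exact ⟨Int.fract_nonneg _, Int.fract_lt_one _⟩
  have hmany := many_pairs (by omega) i1 v b L (by omega) hL1 hvb hvi (primeSeq d α) hx N hN hclose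
  have hlt := hN0 N (by omega)
  have hroot : (N : ℝ) ^ ((1 : ℝ) / (d : ℝ)) = (K : ℝ) := by
    rw [hN]
    push_cast
    rw [one_div]
    exact Real.pow_rpow_inv_natCast (by positivity) (by omega)
  rw [hroot] at hlt
  set A := (((Icc 1 N) ×ˢ (Icc 1 N)).filter (fun kl : ℕ × ℕ => kl.1 ≠ kl.2 ∧ ‖primeSeq d α kl.1 - primeSeq d α kl.2‖ < 1 / (K : ℝ))).card with hA
  have hNr : (0 : ℝ) < N := by
    have : 0 < N := by omega
    exact_mod_cast this
  have h1 : (A : ℝ) < N * (2^d + 1) := by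
    rw [one_div, inv_mul_lt_iff₀ hNr] at hlt
    simpa using hlt
  have h2 : N * (2^d + 3) ≤ A + N := by
    have h3 : (d+3) * (N * (2^d+3)) ≤ (d+3) * (A + N) := by
      calc (d+3) * (N * (2^d+3)) = N * L := by rw [hL]; ring
        _ ≤ (A + N) * (d+3) := hmany
        _ = _ := by ring
    exact Nat.le_of_mul_le_mul_left h3 (by omega)
  have h3 : (N : ℝ) * (2^d + 3) ≤ A + N := by exact_mod_cast h2
  nlinarith

end Pool.Agent.Results.MP_29df5b_nt.NotMetricPoissonian
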